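import Pool.Agent.W957.CH.Stm2

/-! Project CH, part CH-PCS: the sets pcs. -/

namespace Pool.Agent.W778.CH.PCS

open Finset Pool.Agent.W957.CH

variable {V : Type}

/-- joined inside `P` -/
def J (G : SimpleGraph V) (P : Finset V) : V → V → Prop :=
  Relation.ReflTransGen (fun x y => x ∈ P ∧ y ∈ P ∧ G.Adj x y)

theorem J.symm {G : SimpleGraph V} {P : Finset V} {u v : V} (h : J G P u v) : J G P v u := by
  induction h with
  | refl => exact Relation.ReflTransGen.refl
  | tail _ hyz ih => exact Relation.ReflTransGen.head ⟨hyz.2.1, hyz.1, hyz.2.2.symm⟩ ih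

theorem J.mono {G : SimpleGraph V} {P Q : Finset V} (hPQ : P ⊆ Q) {u v : V} (h : J G P u v) :
    J G Q u v := by
  induction h with
  | refl => exact Relation.ReflTransGen.refl
  | tail _ hyz ih => exact Relation.ReflTransGen.tail ih ⟨hPQ hyz.1, hPQ hyz.2.1, hyz.2.2⟩

theorem J.single {G : SimpleGraph V} {P : Finset V} {u v : V} (hu : u ∈ P) (hv : v ∈ P)
    (h : G.Adj u v) : J G P u v := Relation.ReflTransGen.single ⟨hu, hv, h⟩

theorem J.to_path {G : SimpleGraph V} {P : Finset V} {u v : V} (hu : u ∈ P) (h : J G P u v) :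
    ∃ l, PF G u v l ∧ ∀ x ∈ l, x ∈ P := by
  classical
  induction h with
  | refl =>
    refine ⟨[u], ⟨⟨List.nodup_singleton u, List.isChain_singleton u⟩, rfl, rfl⟩, ?_⟩
    intro x hx
    rw [List.mem_singleton] at hx
    rw [hx]; exact hu
  | @tail y z _ hyz ih =>
    obtain ⟨l, ⟨⟨hnd, hch⟩, hh, hl⟩, hP⟩ := ih
    by_cases hz : z ∈ l
    · obtain ⟨l1, l2, rfl⟩ := List.append_of_mem hz
      have e : l1 ++ z :: l2 = (l1 ++ [z]) ++ l2 := by simp
      rw [e] at hnd hch hh hP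
      refine ⟨l1 ++ [z], ⟨⟨(List.nodup_append.1 hnd).1, (List.isChain_append.1 hch).1⟩, ?_, ?_⟩, ?_⟩
      · cases l1 with
        | nil => simpa using hh
        | cons a l1 => simpa using hh
      · simp
      · intro x hx
        exact hP x (List.mem_append_left _ hx)
    · refine ⟨l ++ [z], ⟨⟨?_, ?_⟩, ?_, ?_⟩, ?_⟩
      · rw [List.nodup_append]
        refine ⟨hnd, List.nodup_singleton z, ?_⟩
        intro a ha b hb hab
        rw [List.mem_singleton] at hb
        subst hab; subst hb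
        exact hz ha
      · rw [List.isChain_append]
        refine ⟨hch, List.isChain_singleton z, ?_⟩
        intro x hx w hw
        rw [hl] at hx
        simp only [Option.mem_def, Option.some.injEq] at hx
        simp only [List.head?_cons, Option.mem_def, Option.some.injEq] at hw
        rw [← hx, ← hw]
        exact hyz.2.2
      · cases l with
        | nil => simp at hh
        | cons a l => simpa using hh
      · simp
      · intro x hx
        rw [List.mem_append, List.mem_singleton] at hx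
        rcases hx with hx | rfl
        · exact hP x hx
        · exact hyz.2.1

theorem of_path {G : SimpleGraph V} {P : Finset V} {v : V} (l : List V) :
    ∀ u : V, PF G u v l → (∀ x ∈ l, x ∈ P) → J G P u v := by
  induction l with
  | nil => intro u h; simp [PF] at h
  | cons a t ih =>
    intro u ⟨⟨hnd, hch⟩, hh, hl⟩ hP
    simp only [List.head?_cons, Option.some.injEq] at hh
    subst hh
    cases t with
    | nil =>
      simp only [List.getLast?_singleton, Option.some.injEq] at hl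
      subst hl
      exact Relation.ReflTransGen.refl
    | cons b t =>
      rw [List.isChain_cons_cons] at hch
      have h1 : J G P b v := by
        apply ih b
        · refine ⟨⟨hnd.of_cons, hch.2⟩, rfl, ?_⟩
          rw [List.getLast?_cons_cons] at hl
          exact hl
        · intro x hx; exact hP x (List.mem_cons_of_mem _ hx)
      exact Relation.ReflTransGen.head ⟨hP a (by simp), hP b (by simp), hch.1⟩ h1

theorem con_iff {G : SimpleGraph V} {P : Finset V} :
    Con G P ↔ P.Nonempty ∧ ∀ u ∈ P, ∀ v ∈ P, J G P u v := by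
  constructor
  · rintro ⟨h1, h2⟩
    refine ⟨h1, fun u hu v hv => ?_⟩
    obtain ⟨l, hl, hP⟩ := h2 u hu v hv
    exact of_path l u hl hP
  · rintro ⟨h1, h2⟩
    exact ⟨h1, fun u hu v hv => (h2 u hu v hv).to_path hu⟩

theorem mem_nbr {G : SimpleGraph V} {A P : Finset V} {w : V} :
    w ∈ nbr G A P ↔ w ∈ A ∧ w ∉ P ∧ ∃ p ∈ P, G.Adj p w := by
  classical
  unfold nbr
  rw [mem_filter]

section

variable [DecidableEq V] {X : Cx V} {n : ℕ} {c : ℕ → V} {I : Finset ℕ}

theorem mem_pcs {x : V} : x ∈ pcs X n c I ↔ x ∈ X.A ∧ ((∃ i ∈ I, x = c i) ∨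
    ∃ K, Comp X n c K ∧ x ∈ K ∧ ∃ i ∈ I, At X c K i) := by
  classical
  unfold pcs
  rw [mem_filter]

theorem c_mem_img {i : ℕ} (hi : i < n) : c i ∈ img n c :=
  mem_image_of_mem _ (mem_range.2 hi)

omit [DecidableEq V] in
theorem adj_of_cons (hc : CR X.G n c) {i j : ℕ} (hi : i < n) (hj : j < n) (h : cons n i j) :
    X.G.Adj (c i) (c j) := by
  rcases h with rfl | rfl | ⟨rfl, rfl⟩ | ⟨rfl, rfl⟩
  · exact hc.adj i hj
  · exact (hc.adj j hi).symm
  · exact hc.clo.symm
  · exact hc.clo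

theorem comp_sub {K : Finset V} (hK : Comp X n c K) {i : ℕ} (hi : i ∈ I) (hat : At X c K i) :
    K ⊆ pcs X n c I := fun _ hx => mem_pcs.2 ⟨hK.2.1 hx, Or.inr ⟨K, hK, hx, i, hi, hat⟩⟩

theorem c_mem (hg : Good X n c) (hI : ∀ i ∈ I, i < n) {i : ℕ} (hi : i ∈ I) :
    c i ∈ pcs X n c I := mem_pcs.2 ⟨hg.sub i (hI i hi), Or.inl ⟨i, hi, rfl⟩⟩

theorem join_comp (hg : Good X n c) (hI : ∀ i ∈ I, i < n) {K : Finset V} (hK : Comp X n c K)
    {i : ℕ} (hi : i ∈ I) (hat : At X c K i) {x : V} (hx : x ∈ K) :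
    J X.G (pcs X n c I) x (c i) := by
  obtain ⟨v, hv, hadj⟩ := hat
  have h1 : J X.G K x v := (con_iff.1 hK.1).2 x hx v hv
  have hsub := comp_sub (I := I) hK hi ⟨v, hv, hadj⟩
  exact (h1.mono hsub).trans (J.single (hsub hv) (c_mem hg hI hi) hadj)

theorem to_cycle (hg : Good X n c) (hI : ∀ i ∈ I, i < n) {x : V} (hx : x ∈ pcs X n c I) :
    ∃ i ∈ I, J X.G (pcs X n c I) x (c i) := by
  obtain ⟨-, ⟨i, hi, rfl⟩ | ⟨K, hK, hxK, i, hi, hat⟩⟩ := mem_pcs.1 hx
  · exact ⟨i, hi, Relation.ReflTransGen.refl⟩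
  · exact ⟨i, hi, join_comp hg hI hK hi hat hxK⟩

theorem interval_from (hg : Good X n c) (hI : ∀ i ∈ I, i < n) {a b : ℕ} (hab : Icc a b ⊆ I)
    (i : ℕ) (hai : a ≤ i) : i ≤ b → J X.G (pcs X n c I) (c a) (c i) := by
  induction i, hai using Nat.le_induction with
  | base => intro _; exact Relation.ReflTransGen.refl
  | succ i hai ih =>
    intro hib
    have h1 := ih (by omega)
    have hi : i ∈ I := hab (mem_Icc.2 ⟨hai, by omega⟩)
    have hi' : i + 1 ∈ I := hab (mem_Icc.2 ⟨by omega, hib⟩)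
    exact h1.trans (J.single (c_mem hg hI hi) (c_mem hg hI hi') (hg.cr.adj i (hI _ hi')))

theorem interval (hg : Good X n c) (hI : ∀ i ∈ I, i < n) {a b : ℕ} (hab : Icc a b ⊆ I)
    {i j : ℕ} (hi : a ≤ i ∧ i ≤ b) (hj : a ≤ j ∧ j ≤ b) :
    J X.G (pcs X n c I) (c i) (c j) :=
  (interval_from hg hI hab i hi.1 hi.2).symm.trans (interval_from hg hI hab j hj.1 hj.2)

end

theorem t_PCS (h : S_PC0) : S_PCS := by
  intro V _ X n c I hok hg hcl
  obtain ⟨pc1, -, -, -⟩ := h V X n c hok hg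
  have hI : ∀ i ∈ I, i < n := fun i hi => (hcl i hi).1
  refine ⟨?_, ?_, ?_, ?_⟩
  · rw [Finset.disjoint_left]
    intro x hx hxB
    obtain ⟨-, ⟨i, hi, rfl⟩ | ⟨K, hK, hxK, i, hi, hat⟩⟩ := mem_pcs.1 hx
    · exact (hcl i hi).2.1 hxB
    · exact (Finset.disjoint_left.1 ((hcl i hi).2.2.2 K hK hat)) hxK hxB
  · intro w
    rw [mem_nbr]
    constructor
    · rintro ⟨hwA, hwP, p, hp, hadj⟩
      by_cases hw : w ∈ img n c
      · obtain ⟨j, hj, rfl⟩ := mem_image.1 hw
        rw [mem_range] at hj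
        have hjI : j ∉ I := fun hjI => hwP (c_mem hg hI hjI)
        refine ⟨j, hj, hjI, rfl, ?_⟩
        obtain ⟨-, ⟨i, hi, rfl⟩ | ⟨K, hK, hpK, i, hi, hat⟩⟩ := mem_pcs.1 hp
        · left
          refine ⟨i, hi, ?_⟩
          by_contra hno
          exact (hcl i hi).2.2.1 ⟨j, hj, hadj, hno⟩
        · right
          exact ⟨K, hK, ⟨p, hpK, hadj⟩, i, hi, hat⟩
      · exfalso
        obtain ⟨K', hK', hwK'⟩ := pc1 w hwA hw
        obtain ⟨-, ⟨i, hi, rfl⟩ | ⟨K, hK, hpK, i, hi, hat⟩⟩ := mem_pcs.1 hp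
        · exact hwP (comp_sub hK' hi ⟨w, hwK', hadj.symm⟩ hwK')
        · by_cases hwK : w ∈ K
          · exact hwP (comp_sub hK hi hat hwK)
          · exact hw (hK.2.2.2 (mem_nbr.2 ⟨hwA, hwK, p, hpK, hadj⟩))
    · rintro ⟨j, hj, hjI, rfl, hor⟩
      refine ⟨hg.sub j hj, ?_, ?_⟩
      · intro hmem
        obtain ⟨-, ⟨i, hi, hij⟩ | ⟨K, hK, hpK, i, hi, hat⟩⟩ := mem_pcs.1 hmem
        · have := hg.cr.inj j i hj (hI i hi) hij
          exact hjI (this ▸ hi)
        · exact (Finset.disjoint_left.1 hK.2.2.1) hpK (c_mem_img hj)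
      · rcases hor with ⟨i, hi, hcons⟩ | ⟨K, hK, ⟨v, hv, hadj⟩, i, hi, hat⟩
        · exact ⟨c i, c_mem hg hI hi, adj_of_cons hg.cr (hI i hi) hj hcons⟩
        · exact ⟨v, comp_sub hK hi hat hv, hadj⟩
  · intro a b hab hIab
    rw [con_iff]
    have haI : a ∈ I := by rw [hIab]; exact mem_Icc.2 ⟨le_rfl, hab⟩
    refine ⟨⟨c a, c_mem hg hI haI⟩, fun u hu v hv => ?_⟩
    obtain ⟨i, hi, hui⟩ := to_cycle hg hI hu
    obtain ⟨j, hj, hvj⟩ := to_cycle hg hI hv
    have hi' := mem_Icc.1 (hIab ▸ hi)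
    have hj' := mem_Icc.1 (hIab ▸ hj)
    exact hui.trans ((interval hg hI (hIab ▸ Finset.Subset.refl _) hi' hj').trans hvj.symm)
  · intro a b a' b' K i j hIab hai hib hja hjb hK hKi hKj
    rw [con_iff]
    have hs1 : Icc a b ⊆ I := by rw [hIab]; exact subset_union_left
    have hs2 : Icc a' b' ⊆ I := by rw [hIab]; exact subset_union_right
    have hiI : i ∈ I := hs1 (mem_Icc.2 ⟨hai, hib⟩)
    have hjI : j ∈ I := hs2 (mem_Icc.2 ⟨hja, hjb⟩)
    refine ⟨⟨c i, c_mem hg hI hiI⟩, fun u hu v hv => ?_⟩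
    obtain ⟨x, hx⟩ := hK.1.1
    have hij : J X.G (pcs X n c I) (c i) (c j) :=
      (join_comp hg hI hK hiI hKi hx).symm.trans (join_comp hg hI hK hjI hKj hx)
    have key : ∀ w ∈ pcs X n c I, J X.G (pcs X n c I) w (c i) := by
      intro w hw
      obtain ⟨k, hk, hwk⟩ := to_cycle hg hI hw
      rw [hIab, mem_union, mem_Icc, mem_Icc] at hk
      rcases hk with hk | hk
      · exact hwk.trans (interval hg hI hs1 hk ⟨hai, hib⟩)
      · exact hwk.trans ((interval hg hI hs2 hk ⟨hja, hjb⟩).trans hij.symm)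
    exact (key u hu).trans (key v hv).symm

end Pool.Agent.W778.CH.PCS
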